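import Pool.Agent.H71.V0R.S
import Pool.Agent.H71.V0F.Nup

/-!
# The height of the target over the charts of a later window, with followers

`t_nupr : NuprStmt`, `t_nu0r : Nu0rStmt`. The positions of a follower over the charts of a window are
those of a target with fewer followers.
-/

set_option autoImplicit false

namespace Pool.V0R

open Finset Real MvPolynomial
open Pool.Agent.H49.Ent Pool.Agent.H32.Dense Pool.STK Pool.KA Pool.KSAT Pool.K2S Pool.PB Pool.GEN
open Pool.S6C Pool.RCD Pool.LA91 Pool.AVG96 Pool.V0F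

variable {m : ℕ} {S : PCl m} {α γ : ∀ J : ℕ, Fam m J → Type}
  {f : ∀ (J : ℕ) (F : Fam m J), F.Ω → α J F} {y : ∀ (J : ℕ) (F : Fam m J), F.Ω → γ J F}

/-- The last jets of a chain. -/
theorem qJets_drop {c : ℕ → Fin m} {r₀ r j n : ℕ} {w p N : ℕ → ℕ → ℝ} (hn : r₀ ≤ n)
    {K : ℕ} {e : ℝ} {J : ℕ} {F : Fam m J} {A : F.Ω → Prop} {u : F.Ω → ℕ → ℕ → ℤ}
    (h : (qJets m c r₀ r j w p N).P K e J F A u) :
    (qJets m c n r j w p N).P K e J F A
      (fun ω i j' => if n ≤ i ∧ i < r ∧ j' ≤ j then u ω i j' else 0) := by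
  refine ⟨fun i a b j' c' => ?_, fun ω _ i j' hin => if_neg hin⟩
  have h1 := h.1 i (by omega) b j' c'
  have h2 : (fun ω => if n ≤ i ∧ i < r ∧ j' ≤ j then u ω i j' else 0) = fun ω => u ω i j' := by
    funext ω
    exact if_pos ⟨a, b, c'⟩
  rw [h2]
  exact h1

/-- **The jets of a chain from those of two parts.** -/
theorem few_app {β : ∀ J : ℕ, Fam m J → Type} {g : ∀ (J : ℕ) (F : Fam m J), F.Ω → β J F}
    (hpos : ∀ (τ : ℝ) (J : ℕ) (F : Fam m J) (A : F.Ω → Prop), S.St τ J F A → 0 < Pe F.p A)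
    {U : Type} {Q : Qt m U} {c : ℕ → Fin m} {r₀ k n j : ℕ} {w p N w₁ p₁ N₁ : ℕ → ℕ → ℝ}
    (hk : r₀ ≤ k) (hn : k ≤ n) (h1 : Few S f g y Q (qJets m c r₀ k j w₁ p₁ N₁))
    (he : ∀ i, r₀ ≤ i → i < k → ∀ j' ≤ j, w₁ i j' = w i j' ∧ p₁ i j' = p i j' ∧ N₁ i j' = N i j')
    (h2 : ∀ i, k ≤ i → i < n → ∀ j' ≤ j, Few S f g y Q
      (qJet m ((range i).image c) (c i) j' (w i j') (p i j') (N i j'))) :
    Few S f g y Q (qJets m c r₀ n j w p N) := by
  intro ε hε
  obtain ⟨e, he', H⟩ := Few.pair hpos h1 (few_qjets (r₀ := k) (r := n) hpos h2) ε hε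
  refine ⟨e, he', fun K => Bas.mono 0 ((H K).and (pos_bas hpos)) ?_⟩
  rintro J - F A ⟨H, hA⟩ u u' hu hu'
  have hcl := isLaw_cond F.isLaw hA
  have t1 := qJets_take (n := k) (k := j) hn le_rfl hu'
  have t2 := qJets_drop (n := k) hk hu'
  obtain ⟨V, z, hz, h3⟩ := H u (fun ω =>
    ((fun i j' => if r₀ ≤ i ∧ i < k ∧ j' ≤ j then u' ω i j' else 0),
      (fun i j' => if k ≤ i ∧ i < n ∧ j' ≤ j then u' ω i j' else 0))) hu
    ⟨⟨fun i a b j' c' => by
        obtain ⟨e1, e2, e3⟩ := he i a b j' c'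
        rw [e1, e2, e3]
        exact t1.1 i a b j' c', fun ω hω i j' hin => if_neg hin⟩, t2⟩
  refine ⟨V, z, hz, le_trans (CH_mono_left hcl.nonneg fun ω ω' hω hω' hh => ?_) h3⟩
  have hh1 := (Prod.ext_iff.mp hh).1
  simp only [Prod.mk.injEq] at hh1
  obtain ⟨g1, g2⟩ := hh1
  funext i j'
  by_cases hin : r₀ ≤ i ∧ i < n ∧ j' ≤ j
  · rcases Nat.lt_or_ge i k with h4 | h4
    · have := congrFun (congrFun g1 i) j'
      simp only [if_pos (show r₀ ≤ i ∧ i < k ∧ j' ≤ j from ⟨hin.1, h4, hin.2.2⟩)] at this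
      exact this
    · have := congrFun (congrFun g2 i) j'
      simp only [if_pos (show k ≤ i ∧ i < n ∧ j' ≤ j from ⟨h4, hin.2.1, hin.2.2⟩)] at this
      exact this
  · rw [hu'.2 ω (of_cond_pos hω) i j' hin, hu'.2 ω' (of_cond_pos hω') i j' hin]

variable {c : ℕ → Fin m} {k r : ℕ} {sn : ℕ → ℝ → ℝ} {G : Set ℝ} {b o φ : ℝ}

/-- The positions of all places below the target exist. -/
theorem LadR.exs (L : LadR S c k r sn G b o φ) {v : ℝ} (hv : v ∈ G) {j : ℕ} {N : ℕ → ℕ → ℝ} :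
    Exs S (qJets m c 0 (k + r) j (fun _ _ => v) (fun l _ => sn l v) N) := by
  obtain ⟨u₁, rd, hrd, hch⟩ := L.ch.ch v hv
  exact exs_qjets fun l _ hl j' _ => exs_jet (hrd l hl) (hch.att l (Nat.zero_le _) hl)

/-- The target exists. -/
theorem LadR.ext (L : LadR S c k r sn G b o φ) {v : ℝ} (hv : v ∈ G) {j : ℕ} {N : ℝ} :
    Exs S (qJet m ((range (k + r)).image c) (c (k + r)) j v (sn (k + r) v) N) := by
  obtain ⟨rk, E, hrk, -, hE, -, hat⟩ := L.att v hv
  exact exs_jetE hrk hE hat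

/-- **One step for the target.** -/
theorem LadR.tgt_step (L : LadR S c k r sn G b o φ)
    (hf : ∀ (J : ℕ) (F : Fam m J), ∃ χ : α J F → PtT F, ∀ ω, ptr F J ω = χ (f J F ω))
    (hy : Kn ((range 0).image c) 1 1 y) {low up p₂ N : ℝ} {n : ℕ → ℝ} (hu : up ∈ G)
    (hbl : b ≤ low) (hlu : low ≤ up) (lo : ∀ i < k + r, sn i up + 2 * φ ≤ n i)
    (hi : ∀ i < k + r, n i + 8 * φ ≤ sn i up + (1 - up))
    (ne : ∀ i < k + r, ∀ l < i, n i - sn i up + 8 * φ ≤ n l - sn l up)
    (h3 : N + φ ≤ min (sn (k + r) up) p₂ + (1 - up))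
    (h3' : ∀ l < k + r, N + 2 * φ ≤ min (sn (k + r) up) p₂ + (n l - sn l up)) :
    Few S f (vg up) y ((qJets m c 0 (k + r) 0 (fun _ _ => up) (fun l _ => sn l up)
        (fun l _ => n l)).prod
      (qJet m ((range (k + r)).image c) (c (k + r)) 0 up (sn (k + r) up) N))
      (qJet m ((range (k + r)).image c) (c (k + r)) 0 low p₂ N) := by
  obtain ⟨C₀, htm⟩ := L.tm
  obtain ⟨u₁, rd, hrd, hch⟩ := L.ch.ch up hu
  have hφ := L.φ0
  have hup1 := hch.u0
  have hup0 : 0 ≤ up := L.b0.trans (hbl.trans hlu)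
  have hmin : min (1 : ℝ) (1 - up) = 1 - up := min_eq_right (by linarith)
  refine few_jetN htm hch (k := c (k + r)) (j := 0) (wv := fun _ _ => up)
    (pv := fun l _ => sn l up)
    (Nv := fun l _ => n l) (lv := fun l => n l - sn l up - φ) (w₁ := up) (w₂ := low)
    (p₁ := sn (k + r) up) (p₂ := p₂) (N₁ := N) (N₂ := N) (p₀ := 1) (lam := 1) (σ₀ := φ)
    (fun _ _ _ _ _ => le_rfl) le_rfl hlu hup1 le_rfl one_pos hφ ?_ ?_ ?_ ?_ le_rfl ?_ ?_ hf hy
  · intro i _ hir
    linarith [lo i hir]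
  · intro i _ hir j' hj'
    obtain rfl : j' = 0 := by omega
    push_cast
    linarith
  · intro i _ hir j' hj'
    rw [hmin, min_self]
    linarith [hi i hir]
  · intro i _ hir j' hj' l _ hl
    rw [min_self]
    linarith [ne i hir l hl]
  · rw [hmin]
    push_cast
    linarith
  · intro l _ hl
    push_cast
    linarith [h3' l hl]

/-- **The height of the target**, with digits of the slope-one places good at all windows. -/
theorem nur_core : ∀ r : ℕ, ∀ {m : ℕ} {S : PCl m} {c : ℕ → Fin m} {k : ℕ} {sn : ℕ → ℝ → ℝ}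
    {G : Set ℝ} {b o φ : ℝ}, LadR S c k r sn G b o φ → ∀ {α γ : ∀ J : ℕ, Fam m J → Type}
    {f : ∀ (J : ℕ) (F : Fam m J), F.Ω → α J F} {y : ∀ (J : ℕ) (F : Fam m J), F.Ω → γ J F},
    (∀ (J : ℕ) (F : Fam m J), ∃ χ : α J F → PtT F, ∀ ω, ptr F J ω = χ (f J F ω)) →
    Kn ((range 0).image c) 1 1 y → ∀ {j : ℝ} {p n : ℕ → ℝ}, j ∈ G → b ≤ j → j ≤ o →
    (∀ i < k, sn i b - φ ≤ p i) →
    (∀ u ∈ G, b ≤ u → u ≤ j → ∀ i < k, sn i u + 2 * φ ≤ n i) →
    (∀ u ∈ G, b ≤ u → u ≤ j → ∀ i < k, n i + 8 * φ ≤ sn i u + (1 - u)) →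
    (∀ u ∈ G, b ≤ u → u ≤ j → ∀ i < k, ∀ l < i, n i - sn i u + 8 * φ ≤ n l - sn l u) →
    ∀ {w pr N : ℝ}, w ∈ G → b ≤ w → w ≤ j → sn (k + r) w - φ ≤ pr →
    (∀ v ∈ G, w ≤ v → v ≤ j → N + 20 * ((r : ℝ) + 1) * φ ≤ sn (k + r) v + (sn k j - sn k v)) →
    N + 20 * ((r : ℝ) + 1) * φ ≤ sn (k + r) w + (1 - w) →
    (∀ i < k, N + 20 * ((r : ℝ) + 1) * φ ≤ sn (k + r) w + (n i - sn i w)) →
    Few S f (vg j) y (qJets m c 0 k 0 (fun _ _ => b) (fun l _ => p l) (fun l _ => n l))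
      (qJet m ((range (k + r)).image c) (c (k + r)) 0 w pr N) := by
  intro r
  induction r using Nat.strong_induction_on with
  | _ r IH =>
  intro m S c k sn G b o φ L α γ f y hf hy j p n hj hbj hjo hp lo' hi' ne' w pr N hw hbw hwj hpr
    hNv hN1 hN'
  have hφ := L.φ0
  have hr0 : (0 : ℝ) ≤ r := Nat.cast_nonneg r
  have hj1 : j ≤ 1 := (hjo.trans_lt L.o1).le
  have Ld := L.lad
  obtain ⟨φ', hφ'0, hφ', hgap, hjmp⟩ := L.fm
  obtain ⟨C₀, htm⟩ := L.tm
  obtain ⟨Q, hQ⟩ : ∃ Q, Q = qJets m c 0 k 0 (fun _ _ => b) (fun l _ => p l) (fun l _ => n l) :=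
    ⟨_, rfl⟩
  rw [← hQ]
  have hC : 20 * ((r : ℝ) + 1) * φ = 20 * (r * φ) + 20 * φ := by ring
  rw [hC] at hN1
  have hNv : ∀ v ∈ G, w ≤ v → v ≤ j → N + (20 * (r * φ) + 20 * φ) ≤
      sn (k + r) v + (sn k j - sn k v) := fun v h1 h2 h3 => by
    have := hNv v h1 h2 h3
    rwa [hC] at this
  have hN' : ∀ i < k, N + (20 * (r * φ) + 20 * φ) ≤ sn (k + r) w + (n i - sn i w) :=
    fun i hi => by
    have := hN' i hi
    rwa [hC] at this
  have hrφ : 0 ≤ r * φ := by positivity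
  -- the windows
  obtain ⟨n', hn'⟩ := exists_nat_ge ((j - w) / φ')
  obtain ⟨N', bw, b0, bN, hbw', hs⟩ := gseq (h := 3 * φ') (ρ₀ := φ') hw (by linarith) n' j hj hwj
    (by
      rw [div_le_iff₀ hφ'0] at hn'
      linarith) (fun x h1 h2 => hgap x (hbw.trans h1) (h2.trans hjo))
  have hup : ∀ v : ℝ, v ≤ j → ∀ (J : ℕ) (F : Fam m J), ∃ φ : LnT F → LnT F, ∀ ω,
      vg v J F ω = φ (vg j J F ω) := fun v hv J F => vg_mono hv hj1 J F
  have hstt : ∀ v ∈ G, ∀ v' ∈ G, w ≤ v → v ≤ v' → v' ≤ j → sn (k + r) v + (v' - v) ≤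
      sn (k + r) v' + φ := fun v hv v' hv' h1 h2 h3 =>
    L.st (k + r) (by omega) le_rfl v hv v' hv' (hbw.trans h1) h2 (h3.trans hjo)
  have hfl : ∀ u ∈ G, b ≤ u → u ≤ j → ∀ i < k, |(sn i u - u) - (sn i w - w)| ≤ 2 * φ :=
    fun u hu h1 h2 i hi => Ld.flat hi hu hw h1 (h2.trans hjo) hbw (hwj.trans hjo)
  -- one step, any precision
  have hstep : ∀ up ∈ G, ∀ low ∈ G, ∀ p₂ : ℝ, w ≤ low → low ≤ up → up ≤ j → up ≤ low + 3 * φ' →
      sn (k + r) low - φ ≤ p₂ → Few S f (vg j) y Q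
        (qJet m ((range (k + r)).image c) (c (k + r)) 0 up (sn (k + r) up) N) →
      Few S f (vg j) y Q (qJet m ((range (k + r)).image c) (c (k + r)) 0 low p₂ N) := by
    intro up hu low hlow p₂ h1 h2 h3 h4 h5 h6
    have hlj : low ≤ j := h2.trans h3
    have hbl : b ≤ low := hbw.trans h1
    have hbu : b ≤ up := hbl.trans h2
    have hwu : w ≤ up := h1.trans h2
    rcases le_or_gt N p₂ with hNp | hNp
    · refine Few0.few L.pos (few0_jet htm (L.b0.trans hbl) (hlj.trans_lt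
        (hjo.trans_lt L.o1)) ?_ _ _ _)
      push_cast
      linarith
    obtain ⟨D, hD⟩ : ∃ D : ℝ, D = N - sn (k + r) low + φ := ⟨_, rfl⟩
    have hD0 : 0 ≤ D := by rw [hD]; linarith
    have hul : up - low ≤ 3 * φ := by linarith
    -- the bounds of D
    have hsk : sn (k + r) w + (low - w) ≤ sn (k + r) low + φ := hstt w hw low hlow le_rfl h1 hlj
    have hD1 : D + (20 * (r * φ) + 20 * φ) ≤ 1 - up + 5 * φ := by
      rw [hD]
      linarith
    have hDV : ∀ i < k, D + (20 * (r * φ) + 20 * φ) ≤ n i - sn i up + 7 * φ := fun i hi => by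
      have a := abs_le.1 (hfl up hu hbu h3 i hi)
      have a2 := hN' i hi
      rw [hD]
      linarith [a.2]
    have hmm : sn (k + r) low - φ ≤ min (sn (k + r) up) p₂ :=
      le_min (by linarith [hstt low hlow up hu h1 h2 h3]) h5
    -- the digits of the followers
    obtain ⟨mg, hmg⟩ : ∃ mg : ℕ → ℝ, mg = fun l : ℕ =>
      10 * (((k : ℝ) + r - (l : ℝ)) * φ) := ⟨_, rfl⟩
    have hmgl : ∀ l, mg l = 10 * (((k : ℝ) + r - l) * φ) := fun l => by rw [hmg]
    have hmg1 : ∀ l, l < k + r → 10 * φ ≤ mg l := fun l hl => by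
      have : (l : ℝ) + 1 ≤ (k : ℝ) + r := by exact_mod_cast hl
      rw [hmgl]
      have := mul_le_mul_of_nonneg_right (show (1 : ℝ) ≤ (k : ℝ) + r - l by linarith) hφ.le
      linarith
    have hmg2 : ∀ l, k ≤ l → mg l ≤ 10 * (r * φ) := fun l hl => by
      have : (k : ℝ) ≤ l := by exact_mod_cast hl
      rw [hmgl]
      have := mul_le_mul_of_nonneg_right (show (k : ℝ) + r - l ≤ r by linarith) hφ.le
      linarith
    have hmg3 : ∀ i l, l < i → mg i + 10 * φ ≤ mg l := fun i l hl => by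
      have : (l : ℝ) + 1 ≤ i := by exact_mod_cast hl
      rw [hmgl, hmgl]
      have := mul_le_mul_of_nonneg_right (show (k : ℝ) + r - i + 1 ≤ (k : ℝ) + r - l by linarith)
        hφ.le
      linarith
    obtain ⟨nn, hnn⟩ : ∃ nn : ℕ → ℝ, nn = fun l => if l < k then n l else
      sn l up + D + mg l := ⟨_, rfl⟩
    have hn1 : ∀ l < k, nn l = n l := fun l hl => by
      rw [hnn]
      exact if_pos hl
    have hn2 : ∀ l, k ≤ l → nn l = sn l up + D + mg l := fun l hl => by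
      rw [hnn]
      exact if_neg (not_lt.2 hl)
    -- the positions of all places at `up`
    have hV := Few.up (f' := f) (y' := y) L.pos (fun J F => ⟨fun x => x, fun _ => rfl⟩)
      (hup up h3) (fun J F => ⟨fun x => x, fun _ => rfl⟩) (Ld.pos_up hf hy hu hbu
        (h3.trans hjo) hp (fun u hu' h7 h8 => lo' u hu' h7 (h8.trans h3))
        (fun u hu' h7 h8 => hi' u hu' h7 (h8.trans h3))
        (fun u hu' h7 h8 => ne' u hu' h7 (h8.trans h3)))
    rw [← hQ] at hV
    have hA : Few S f (vg j) y Q (qJets m c 0 (k + r) 0 (fun _ _ => up) (fun l _ => sn l up)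
        (fun l _ => nn l)) := by
      refine few_app L.pos (Nat.zero_le k) (Nat.le_add_right k r) hV
        (fun i _ hi j' _ => ⟨rfl, rfl, (hn1 i hi).symm⟩) (fun l hl hlr j' hj' => ?_)
      obtain rfl : j' = 0 := by omega
      obtain ⟨r', rfl⟩ : ∃ r', l = k + r' := ⟨l - k, by omega⟩
      have hr' : r' < r := by omega
      have hrr : (r' : ℝ) + 1 ≤ r := by exact_mod_cast hr'
      have hmr : mg (k + r') = 10 * (((r : ℝ) - r') * φ) := by
        rw [hmgl]
        push_cast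
        ring
      have hdr : φ ≤ ((r : ℝ) - r') * φ := by
        have := mul_le_mul_of_nonneg_right (show (1 : ℝ) ≤ (r : ℝ) - r' by linarith) hφ.le
        linarith
      have hdr' : ((r : ℝ) - r') * φ = r * φ - r' * φ := by ring
      have hC' : 20 * ((r' : ℝ) + 1) * φ = 20 * (r' * φ) + 20 * φ := by ring
      rw [hQ]
      refine IH r' hr' (L.take hr') hf hy hj hbj hjo hp lo' hi' ne' hu hbu h3 (by linarith)
        ?_ ?_ ?_
      · intro v hv hv1 hv2
        rw [hn2 _ hl, hC']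
        have e1 := hNv low hlow h1 hlj
        have e2 := hjmp k le_rfl (by omega) low hlow up hu hbl h2 (h3.trans hjo) h4
        -- the followers move in the same way
        have e3 := (abs_le.1 (L.eq (k + r') hl hlr up hu v hv hbu hv1 (hv2.trans hjo))).1
        have e4 : D + (20 * (r * φ) + 20 * φ) ≤ sn k j - sn k up + 3 * φ := by
          rw [hD]
          linarith
        linarith
      · rw [hn2 _ hl, hC']
        linarith
      · intro i hi
        rw [hn2 _ hl, hC']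
        linarith [hDV i hi]
    have hB := L.tgt_step hf hy (p₂ := p₂) (N := N) (n := nn) hu hbl h2
      (fun i hi => by
        rcases Nat.lt_or_ge i k with h7 | h7
        · rw [hn1 i h7]
          exact lo' up hu hbu h3 i h7
        · rw [hn2 i h7]
          linarith [hmg1 i hi])
      (fun i hi => by
        rcases Nat.lt_or_ge i k with h7 | h7
        · rw [hn1 i h7]
          exact hi' up hu hbu h3 i h7
        · rw [hn2 i h7]
          linarith [hmg2 i h7])
      (fun i hi l hl => by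
        rcases Nat.lt_or_ge i k with h7 | h7
        · rw [hn1 i h7, hn1 l (by omega)]
          exact ne' up hu hbu h3 i h7 l hl
        · rw [hn2 i h7]
          rcases Nat.lt_or_ge l k with h8 | h8
          · rw [hn1 l h8]
            linarith [hmg2 i h7, hDV l h8]
          · rw [hn2 l h8]
            linarith [hmg3 i l hl])
      (by
        have : N = D + sn (k + r) low - φ := by rw [hD]; ring
        linarith)
      (fun l hl => by
        have e1 : N = D + sn (k + r) low - φ := by rw [hD]; ring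
        rcases Nat.lt_or_ge l k with h7 | h7
        · rw [hn1 l h7]
          linarith [hDV l h7]
        · rw [hn2 l h7]
          linarith [hmg1 l hl])
    exact Few.trans L.pos (Exs.prod (L.exs hu) (L.ext hu)) (Few.pair L.pos hA h6)
      (Few.up (f' := f) (y' := y) L.pos (fun J F => ⟨fun x => x, fun _ => rfl⟩) (hup up h3)
        (fun J F => ⟨fun x => x, fun _ => rfl⟩) hB)
  have key : ∀ t ≤ N', Few S f (vg j) y Q
      (qJet m ((range (k + r)).image c) (c (k + r)) 0 (bw t) (sn (k + r) (bw t)) N) := by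
    intro t
    induction t with
    | zero =>
      intro _
      rw [b0]
      refine Few0.few L.pos (few0_jet htm (L.b0.trans hbj) (hjo.trans_lt L.o1) ?_ _ _ _)
      push_cast
      linarith [hNv j hj hwj le_rfl]
    | succ t ih =>
      intro ht
      obtain ⟨q1, q2⟩ := hs t (by omega)
      obtain ⟨g1, g2, g3⟩ := hbw' t (by omega)
      obtain ⟨g4, g5, g6⟩ := hbw' (t + 1) ht
      exact hstep _ g1 _ g4 _ g5 q1 g3 q2 (by linarith) (ih (by omega))
  have h8 := key N' le_rfl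
  rw [bN] at h8
  exact hstep w hw w hw pr le_rfl le_rfl hwj (by linarith) hpr h8

/-- **(NUPR)** -/
theorem t_nupr : NuprStmt := by
  intro m S c k r sn G b o φ L α γ f y hf hy w j oj pr N p n hw hj hbw hwj hjo hjoj hoj1 hp hpr hn
    hlo hNv hN1 hN'
  have hφ := L.φ0
  have hbj := hbw.trans hwj
  have Ld := L.lad
  have hfl : ∀ u ∈ G, b ≤ u → u ≤ j → ∀ i < k,
      |(sn i u - u) - (sn i w - w)| ≤ 2 * φ ∧ |(sn i u - u) - (sn i j - j)| ≤ 2 * φ :=
    fun u hu h1 h2 i hi => ⟨Ld.flat hi hu hw h1 (h2.trans hjo) hbw (hwj.trans hjo),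
      Ld.flat hi hu hj h1 (h2.trans hjo) hbj hjo⟩
  have h1 := nur_core r L hf hy hj hbj hjo hp (n := n)
    (fun u hu h1 h2 i hi => by
      have a := abs_le.1 (hfl u hu h1 h2 i hi).2
      linarith [hlo i hi, a.2])
    (fun u hu h1 h2 i hi => by
      have a := abs_le.1 (hfl u hu h1 h2 i hi).1
      linarith [hn.hi i hi, a.1])
    (fun u hu h1 h2 i hi l hl => by
      have a := abs_le.1 (hfl u hu h1 h2 i hi).1
      have a' := abs_le.1 (hfl u hu h1 h2 l (by omega)).1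
      linarith [hn.ne i hi l hl, a.1, a.2, a'.1, a'.2]) hw hbw hwj hpr hNv hN1 hN'
  exact Few.up (f' := f) (y' := y) L.pos (fun J F => ⟨fun x => x, fun _ => rfl⟩)
    (fun J F => vg_mono hjoj hoj1 J F) (fun J F => ⟨fun x => x, fun _ => rfl⟩) h1

/-- **(NU0R)** -/
theorem t_nu0r : Nu0rStmt := by
  intro m S c k r sn G b o φ L α γ f y hf hy w x x' ox pr N hw hx hx' hbw hwx hxx hxo hox hox1 hx1
    hpr hNv hN'
  obtain ⟨C₀, htm⟩ := L.tm
  have hφ := L.φ0
  have Ld := L.lad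
  have hk0 : (0 : ℝ) ≤ k := Nat.cast_nonneg k
  have hr0 : (0 : ℝ) ≤ r := Nat.cast_nonneg r
  have hkφ : 0 ≤ (k : ℝ) * φ := by positivity
  have hrφ : 0 ≤ (r : ℝ) * φ := by positivity
  have hC : 60 * ((k : ℝ) + r + 1) * φ = 60 * (k * φ) + 60 * (r * φ) + 60 * φ := by ring
  have hC' : 20 * ((r : ℝ) + 1) * φ = 20 * (r * φ) + 20 * φ := by ring
  rw [hC] at hxx hx1 hN'
  have hNv : ∀ v ∈ G, w ≤ v → v ≤ x → N + (60 * (k * φ) + 60 * (r * φ) + 60 * φ) ≤
      sn (k + r) v + (sn k x - sn k v) := fun v h1 h2 h3 => by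
    have := hNv v h1 h2 h3
    rwa [hC] at this
  have hwx' : w ≤ x' := by linarith
  have hxo' : x ≤ o := by linarith
  have hwo : w ≤ o := hwx.trans hxo'
  have hxox : x ≤ ox := by linarith
  obtain ⟨n, hn⟩ : ∃ n : ℕ → ℝ, n = fun i => sn i x' - ((i : ℝ) + 1) * (26 * φ) := ⟨_, rfl⟩
  have hni : ∀ i, n i = sn i x' - ((i : ℝ) + 1) * (26 * φ) := fun i => by rw [hn]
  have hir : ∀ i < k, ((i : ℝ) + 1) * (26 * φ) ≤ 26 * (k * φ) := fun i hi => by
    have : (i : ℝ) + 1 ≤ k := by exact_mod_cast hi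
    have := mul_le_mul_of_nonneg_right this (show 0 ≤ 26 * φ by positivity)
    linarith
  have hi0 : ∀ i : ℕ, 26 * φ ≤ ((i : ℝ) + 1) * (26 * φ) := fun i => by
    have : (0 : ℝ) ≤ i * (26 * φ) := by positivity
    linarith
  have hfl : ∀ i < k, |(sn i x' - x') - (sn i w - w)| ≤ 2 * φ := fun i hi =>
    Ld.flat hi hx' hw (hbw.trans hwx') hxo hbw hwo
  have hflx : ∀ i < k, |(sn i x' - x') - (sn i x - x)| ≤ 2 * φ := fun i hi =>
    Ld.flat hi hx' hx (hbw.trans hwx') hxo (hbw.trans hwx) hxo'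
  have L' := L.cut hw hbw hwo
  have h1 := t_nupr L' hf hy (w := w) (j := x) (oj := ox) (pr := pr) (N := N)
    (p := fun i => sn i w) (n := n) hw hx le_rfl hwx hxo' hxox hox1 (fun _ _ => by linarith) hpr
    ⟨fun i hi => by
      have a := abs_le.1 (hfl i hi)
      rw [hni]
      linarith [hir i hi, a.1], fun i hi => by
      have a := abs_le.1 (hfl i hi)
      rw [hni]
      linarith [hi0 i, a.2], fun i hi l hl => by
      have a := abs_le.1 (hfl i hi)
      have a' := abs_le.1 (hfl l (by omega))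
      rw [hni, hni]
      have e1 : ((l : ℝ) + 1) * (26 * φ) + 26 * φ ≤ ((i : ℝ) + 1) * (26 * φ) := by
        have : (l : ℝ) + 1 ≤ i := by exact_mod_cast hl
        have := mul_le_mul_of_nonneg_right this (show 0 ≤ 26 * φ by positivity)
        linarith
      linarith [a.1, a.2, a'.1, a'.2]⟩ (fun i hi => by
      have a := abs_le.1 (hflx i hi)
      rw [hni]
      linarith [hir i hi, a.1]) (fun v hv h2 h3 => by
      rw [hC']
      linarith [hNv v hv h2 h3]) (by
      rw [hC']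
      linarith) (fun i hi => by
      have a := abs_le.1 (hfl i hi)
      rw [hni, hC']
      linarith [hir i hi, a.1])
  have h0 : Few0 S f (vg ox) y (qJets m c 0 k 0 (fun _ _ => w) (fun l _ => sn l w)
      (fun l _ => n l)) := by
    refine few_tQt L.pos (few_qjets L.pos fun l _ hl j' hj' => ?_)
    obtain rfl : j' = 0 := by omega
    refine Few0.few L.pos (hts0G htm L.pos Ld.ch hf hy (w := w) (o := x') (ow := ox) (φ := 2 * φ)
      (ρ₀ := φ) (κ := φ) hw hx' hwx' hox hox1 (by positivity) hφ.le hφ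
      (fun z h1 h2 => L.gap z (hbw.trans h1) (h2.trans hxo))
      (fun i hi v hv h1 h2 => Ld.flat hi hv hx' (hbw.trans h1) (h2.trans hxo)
        (hbw.trans hwx') hxo) hl ?_)
    rw [hni]
    have : (0 : ℝ) ≤ ((l : ℝ) + 1) * φ := by positivity
    linarith
  exact Few0.trans L.pos (L'.lad.exs hw) h0 h1

/-! ### The relation of the slopes of the followers and of the target -/

/-- A target at least as steep as the followers: the condition at `w` is enough. -/
theorem LadR.num_ge (L : LadR S c k r sn G b o φ)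
    (hge : ∀ v ∈ G, ∀ v' ∈ G, b ≤ v → v ≤ v' → v' ≤ o →
      sn k v' - sn k v ≤ sn (k + r) v' - sn (k + r) v + φ) {w j X : ℝ} (hw : w ∈ G) (hbw : b ≤ w)
    (hjo : j ≤ o) (h : X + φ ≤ sn (k + r) w + (sn k j - sn k w)) :
    ∀ v ∈ G, w ≤ v → v ≤ j → X ≤ sn (k + r) v + (sn k j - sn k v) := fun v hv h1 h2 => by
  linarith [hge w hw v hv hbw h1 (h2.trans hjo)]

/-- Followers at least as steep as the target: the condition at `j` is enough. -/
theorem LadR.num_le (L : LadR S c k r sn G b o φ)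
    (hle : ∀ v ∈ G, ∀ v' ∈ G, b ≤ v → v ≤ v' → v' ≤ o →
      sn (k + r) v' - sn (k + r) v ≤ sn k v' - sn k v + φ) {w j X : ℝ} (hj : j ∈ G) (hbw : b ≤ w)
    (hjo : j ≤ o) (h : X + φ ≤ sn (k + r) j) :
    ∀ v ∈ G, w ≤ v → v ≤ j → X ≤ sn (k + r) v + (sn k j - sn k v) := fun v hv h1 h2 => by
  linarith [hle v hv j hj (hbw.trans h1) h2 hjo]

end Pool.V0R
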