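import Pool.Agent.H44.V0F.S
import Pool.Agent.H3.V0F.Ag

/-!
# Followers of one slope over slope-one places: the ladder

`LadR`: a chain `c 0, …, c (k - 1)` of slopes one, followers `c k, …, c (k + r - 1)` of equal slopes
and a target `c (k + r)`. Between neighbouring windows the levels have small jumps.
`NuprStmt`, `Nu0rStmt`: the height of the target over the charts of `w`.
-/

set_option autoImplicit false

namespace Pool.V0R

open Finset Real MvPolynomial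
open Pool.Agent.H49.Ent Pool.Agent.H32.Dense Pool.STK Pool.KA Pool.KSAT Pool.K2S Pool.PB Pool.GEN
open Pool.S6C Pool.RCD Pool.LA91 Pool.AVG96 Pool.V0F

/-- **The ladder of windows** with `r` followers. -/
structure LadR {m : ℕ} (S : PCl m) (c : ℕ → Fin m) (k r : ℕ) (sn : ℕ → ℝ → ℝ) (G : Set ℝ)
    (b o φ : ℝ) : Prop where
  tm : ∃ C₀, TmC S C₀
  pos : ∀ (τ : ℝ) (J : ℕ) (F : Fam m J) (A : F.Ω → Prop), S.St τ J F A → 0 < Pe F.p A
  inj : Set.InjOn c (Set.Iio (k + r + 1))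
  ch : ChG S c (k + r) sn G
  att : ∀ w ∈ G, ∃ rk E : ℝ, 0 ≤ rk ∧ rk < 1 ∧ 0 ≤ E ∧ E + sn (k + r) w < 1 ∧
    ∀ e : ℝ, 0 < e → ∃ K : ℕ, Bas S (fun J F A =>
      Lb F ((range (k + r)).image c) (c (k + r)) K ⌊(E + e) * J⌋₊ J ⌊w * J⌋₊
        ⌊(rk + e) * J⌋₊ ⌊(sn (k + r) w - e) * J⌋₊ A)
  bG : b ∈ G
  oG : o ∈ G
  b0 : 0 ≤ b
  bo : b ≤ o
  o1 : o < 1
  φ0 : 0 < φ
  fm : ∃ φ' : ℝ, 0 < φ' ∧ φ' ≤ φ ∧ (∀ x, b ≤ x → x ≤ o → ∃ v ∈ G, |v - x| ≤ φ') ∧
    ∀ l, k ≤ l → l ≤ k + r → ∀ v ∈ G, ∀ v' ∈ G, b ≤ v → v ≤ v' → v' ≤ o → v' ≤ v + 3 * φ' →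
      sn l v' ≤ sn l v + 2 * φ
  fl : ∀ i < k, ∀ v ∈ G, b ≤ v → v ≤ o → |(sn i v - v) - (sn i o - o)| ≤ φ
  st : ∀ l, k ≤ l → l ≤ k + r → ∀ v ∈ G, ∀ v' ∈ G, b ≤ v → v ≤ v' → v' ≤ o →
    sn l v + (v' - v) ≤ sn l v' + φ
  eq : ∀ l, k ≤ l → l < k + r → ∀ v ∈ G, ∀ v' ∈ G, b ≤ v → v ≤ v' → v' ≤ o →
    |(sn l v' - sn l v) - (sn k v' - sn k v)| ≤ φ

namespace LadR

variable {m : ℕ} {S : PCl m} {c : ℕ → Fin m} {k r : ℕ} {sn : ℕ → ℝ → ℝ} {G : Set ℝ} {b o φ : ℝ}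

theorem gap (L : LadR S c k r sn G b o φ) : ∀ x, b ≤ x → x ≤ o → ∃ v ∈ G, |v - x| ≤ φ := by
  obtain ⟨φ', -, h1, h2, -⟩ := L.fm
  intro x hx hx'
  obtain ⟨v, hv, h3⟩ := h2 x hx hx'
  exact ⟨v, hv, h3.trans h1⟩

/-- **A follower as the target.** -/
theorem take (L : LadR S c k r sn G b o φ) {r' : ℕ} (hr : r' < r) : LadR S c k r' sn G b o φ where
  tm := L.tm
  pos := L.pos
  inj := L.inj.mono fun y hy => by
    rw [Set.mem_Iio] at hy ⊢
    omega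
  ch := ⟨fun w hw => by
    obtain ⟨u₁, rd, h1, h2⟩ := L.ch.ch w hw
    exact ⟨u₁, rd, fun i hi => h1 i (by omega), h2.take (Nat.zero_le _) (by omega)⟩⟩
  att := fun w hw => by
    obtain ⟨u₁, rd, h1, h2⟩ := L.ch.ch w hw
    refine ⟨rd (k + r'), 0, h1 (k + r') (by omega), h2.r1 (k + r') (Nat.zero_le _) (by omega),
      le_rfl, ?_, fun e he => ?_⟩
    · have := (h2.s0 (k + r') (Nat.zero_le _) (by omega)).2
      linarith
    · obtain ⟨K, hK⟩ := h2.att (k + r') (Nat.zero_le _) (by omega) e he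
      refine ⟨K, ?_⟩
      rw [zero_add]
      exact hK
  bG := L.bG
  oG := L.oG
  b0 := L.b0
  bo := L.bo
  o1 := L.o1
  φ0 := L.φ0
  fm := by
    obtain ⟨φ', h1, h2, h3, h4⟩ := L.fm
    exact ⟨φ', h1, h2, h3, fun l a b => h4 l a (by omega)⟩
  fl := L.fl
  st := fun l a b => L.st l a (by omega)
  eq := fun l a b => L.eq l a (by omega)

/-- **A shorter ladder.** -/
theorem cut (L : LadR S c k r sn G b o φ) {b' : ℝ} (hb : b' ∈ G) (h1 : b ≤ b') (h2 : b' ≤ o) :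
    LadR S c k r sn G b' o φ where
  tm := L.tm
  pos := L.pos
  inj := L.inj
  ch := L.ch
  att := L.att
  bG := hb
  oG := L.oG
  b0 := L.b0.trans h1
  bo := h2
  o1 := L.o1
  φ0 := L.φ0
  fm := by
    obtain ⟨φ', h3, h4, h5, h6⟩ := L.fm
    exact ⟨φ', h3, h4, fun x hx hx' => h5 x (h1.trans hx) hx',
      fun l a b v hv v' hv' h7 => h6 l a b v hv v' hv' (h1.trans h7)⟩
  fl := fun i hi v hv h3 h4 => L.fl i hi v hv (h1.trans h3) h4
  st := fun l a b v hv v' hv' h3 => L.st l a b v hv v' hv' (h1.trans h3)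
  eq := fun l a b v hv v' hv' h3 => L.eq l a b v hv v' hv' (h1.trans h3)

/-- **The ladder of the first follower** (of the target for `r = 0`). -/
theorem lad (L : LadR S c k r sn G b o φ) : Lad S c k sn G b o φ where
  tm := L.tm
  pos := L.pos
  inj := L.inj.mono fun y hy => by
    rw [Set.mem_Iio] at hy ⊢
    omega
  ch := ⟨fun w hw => by
    obtain ⟨u₁, rd, h1, h2⟩ := L.ch.ch w hw
    exact ⟨u₁, rd, fun i hi => h1 i (by omega), h2.take (Nat.zero_le _) (by omega)⟩⟩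
  att := fun w hw => by
    rcases Nat.eq_zero_or_pos r with h0 | h0
    · subst h0
      exact L.att w hw
    · exact (L.take h0).att w hw
  bG := L.bG
  oG := L.oG
  b0 := L.b0
  bo := L.bo
  o1 := L.o1
  φ0 := L.φ0
  gap := L.gap
  fl := L.fl
  st := fun v hv v' hv' h1 h2 h3 => L.st k le_rfl (by omega) v hv v' hv' h1 h2 h3

/-- **One window**, all places. -/
theorem one (L : LadR S c k r sn G b o φ) {w : ℝ} (hw : w ∈ G) :
    Lad S c (k + r) sn {w} w w φ := by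
  obtain ⟨u₁, rd, h1, h2⟩ := L.ch.ch w hw
  exact {
    tm := L.tm
    pos := L.pos
    inj := L.inj
    ch := L.ch.mono (Set.singleton_subset_iff.2 hw)
    att := fun v hv => by
      rw [Set.mem_singleton_iff.1 hv]
      exact L.att w hw
    bG := Set.mem_singleton w
    oG := Set.mem_singleton w
    b0 := h2.w0
    bo := le_rfl
    o1 := h2.u0
    φ0 := L.φ0
    gap := fun x h3 h4 => ⟨w, Set.mem_singleton w, by
      rw [le_antisymm h4 h3, sub_self, abs_zero]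
      exact L.φ0.le⟩
    fl := fun i _ v hv _ _ => by
      rw [Set.mem_singleton_iff.1 hv, sub_self, abs_zero]
      exact L.φ0.le
    st := fun v hv v' hv' _ _ _ => by
      rw [Set.mem_singleton_iff.1 hv, Set.mem_singleton_iff.1 hv']
      linarith [L.φ0] }

end LadR

/-- **(NUPR)** The height of the target over the charts of `w`, from the record at `j` and from the
positions of the slope-one places over the charts of `b`. At every window between `w` and `j` the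
record at `j` must know the followers to the digits which the chart of the target wants. -/
def NuprStmt : Prop :=
  ∀ {m : ℕ} {S : PCl m} {c : ℕ → Fin m} {k r : ℕ} {sn : ℕ → ℝ → ℝ} {G : Set ℝ} {b o φ : ℝ},
    LadR S c k r sn G b o φ → ∀ {α γ : ∀ J : ℕ, Fam m J → Type}
    {f : ∀ (J : ℕ) (F : Fam m J), F.Ω → α J F} {y : ∀ (J : ℕ) (F : Fam m J), F.Ω → γ J F},
    (∀ (J : ℕ) (F : Fam m J), ∃ χ : α J F → PtT F, ∀ ω, ptr F J ω = χ (f J F ω)) →
    Kn ((range 0).image c) 1 1 y → ∀ {w j oj pr N : ℝ} {p n : ℕ → ℝ}, w ∈ G → j ∈ G → b ≤ w →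
    w ≤ j → j ≤ o → j ≤ oj → oj ≤ 1 → (∀ i < k, sn i b - φ ≤ p i) → sn (k + r) w - φ ≤ pr →
    Nst k sn w φ n → (∀ i < k, sn i j + 20 * φ ≤ n i) →
    (∀ v ∈ G, w ≤ v → v ≤ j → N + 20 * ((r : ℝ) + 1) * φ ≤ sn (k + r) v + (sn k j - sn k v)) →
    N + 20 * ((r : ℝ) + 1) * φ ≤ sn (k + r) w + (1 - w) →
    (∀ i < k, N + 20 * ((r : ℝ) + 1) * φ ≤ sn (k + r) w + (n i - sn i w)) →
    Few S f (vg oj) y (qJets m c 0 k 0 (fun _ _ => b) (fun l _ => p l) (fun l _ => n l))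
      (qJet m ((range (k + r)).image c) (c (k + r)) 0 w pr N)

/-- **(NU0R)** The height of the target over the charts of `w` is few bits given a later record. -/
def Nu0rStmt : Prop :=
  ∀ {m : ℕ} {S : PCl m} {c : ℕ → Fin m} {k r : ℕ} {sn : ℕ → ℝ → ℝ} {G : Set ℝ} {b o φ : ℝ},
    LadR S c k r sn G b o φ → ∀ {α γ : ∀ J : ℕ, Fam m J → Type}
    {f : ∀ (J : ℕ) (F : Fam m J), F.Ω → α J F} {y : ∀ (J : ℕ) (F : Fam m J), F.Ω → γ J F},
    (∀ (J : ℕ) (F : Fam m J), ∃ χ : α J F → PtT F, ∀ ω, ptr F J ω = χ (f J F ω)) →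
    Kn ((range 0).image c) 1 1 y → ∀ {w x x' ox pr N : ℝ}, w ∈ G → x ∈ G → x' ∈ G → b ≤ w →
    w ≤ x → x + 60 * ((k : ℝ) + r + 1) * φ ≤ x' → x' ≤ o → x' ≤ ox → ox ≤ 1 →
    x' + 60 * ((k : ℝ) + r + 1) * φ ≤ 1 → sn (k + r) w - φ ≤ pr →
    (∀ v ∈ G, w ≤ v → v ≤ x →
      N + 60 * ((k : ℝ) + r + 1) * φ ≤ sn (k + r) v + (sn k x - sn k v)) →
    N + 60 * ((k : ℝ) + r + 1) * φ ≤ sn (k + r) w + (x' - w) →
    Few0 S f (vg ox) y (qJet m ((range (k + r)).image c) (c (k + r)) 0 w pr N)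

end Pool.V0R
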