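import Pool.Agent.H71.V0R.Nur
import Pool.Agent.H44.V0P.S

/-!
# One follower of the same slope

`t_nupp : NuppStmt`, `t_nu0p : Nu0pStmt` from the theorems with `r` followers.
-/

set_option autoImplicit false

namespace Pool.V0Q

open Finset Real MvPolynomial
open Pool.Agent.H49.Ent Pool.Agent.H32.Dense Pool.STK Pool.KA Pool.KSAT Pool.K2S Pool.PB Pool.GEN
open Pool.S6C Pool.RCD Pool.LA91 Pool.AVG96 Pool.OWN68 Pool.V0F Pool.V0R

/-- **(NUPP)**, the pair over at least one slope-one place. -/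
theorem nupp {m : ℕ} {S : PCl m} {c : ℕ → Fin m} {k : ℕ} {sn : ℕ → ℝ → ℝ} {G : Set ℝ}
    {b o φ : ℝ} (L : LadP S c k sn G b o φ) {α γ : ∀ J : ℕ, Fam m J → Type}
    {f : ∀ (J : ℕ) (F : Fam m J), F.Ω → α J F} {y : ∀ (J : ℕ) (F : Fam m J), F.Ω → γ J F}
    (hf : ∀ (J : ℕ) (F : Fam m J), ∃ χ : α J F → PtT F, ∀ ω, ptr F J ω = χ (f J F ω))
    (hy : Kn ((range 0).image c) 1 1 y) {w j oj pr N : ℝ} {p n : ℕ → ℝ} (hw : w ∈ G) (hj : j ∈ G)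
    (hbw : b ≤ w) (hwj : w ≤ j) (hjo : j ≤ o) (hjoj : j ≤ oj) (hoj : oj ≤ 1)
    (hp : ∀ i < k, sn i b - φ ≤ p i) (hpr : sn (k + 1) w - φ ≤ pr) (hn : Nst k sn w φ n)
    (hlo : ∀ i < k, sn i j + 20 * φ ≤ n i) (hN : N + 60 * φ ≤ sn (k + 1) j)
    (h1 : N + 40 * φ ≤ sn (k + 1) w + (1 - w))
    (hN' : ∀ i < k, N + 60 * φ ≤ sn (k + 1) w + (n i - sn i w)) :
    Few S f (vg oj) y (qJets m c 0 k 0 (fun _ _ => b) (fun l _ => p l) (fun l _ => n l))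
      (qJet m ((range (k + 1)).image c) (c (k + 1)) 0 w pr N) := by
  have hφ := L.φ0
  have hC : 20 * (((1 : ℕ) : ℝ) + 1) * φ = 40 * φ := by push_cast; ring
  refine t_nupr L.toR hf hy hw hj hbw hwj hjo hjoj hoj hp hpr hn hlo (fun v hv a b' => ?_) ?_
    (fun i hi => ?_)
  · rw [hC]
    have := (abs_le.1 (L.eq v hv j hj (hbw.trans a) b' hjo)).2
    linarith
  · rw [hC]
    exact h1
  · rw [hC]
    linarith [hN' i hi]

/-- **(NUPP)** with at least one slope-one place: the condition of the times follows. -/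
theorem nupp1 {m : ℕ} {S : PCl m} {c : ℕ → Fin m} {k : ℕ} {sn : ℕ → ℝ → ℝ} {G : Set ℝ}
    {b o φ : ℝ} (hk : 1 ≤ k) (L : LadP S c k sn G b o φ) {α γ : ∀ J : ℕ, Fam m J → Type}
    {f : ∀ (J : ℕ) (F : Fam m J), F.Ω → α J F} {y : ∀ (J : ℕ) (F : Fam m J), F.Ω → γ J F}
    (hf : ∀ (J : ℕ) (F : Fam m J), ∃ χ : α J F → PtT F, ∀ ω, ptr F J ω = χ (f J F ω))
    (hy : Kn ((range 0).image c) 1 1 y) {w j oj pr N : ℝ} {p n : ℕ → ℝ} (hw : w ∈ G) (hj : j ∈ G)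
    (hbw : b ≤ w) (hwj : w ≤ j) (hjo : j ≤ o) (hjoj : j ≤ oj) (hoj : oj ≤ 1)
    (hp : ∀ i < k, sn i b - φ ≤ p i) (hpr : sn (k + 1) w - φ ≤ pr) (hn : Nst k sn w φ n)
    (hlo : ∀ i < k, sn i j + 20 * φ ≤ n i) (hN : N + 60 * φ ≤ sn (k + 1) j)
    (hN' : ∀ i < k, N + 60 * φ ≤ sn (k + 1) w + (n i - sn i w)) :
    Few S f (vg oj) y (qJets m c 0 k 0 (fun _ _ => b) (fun l _ => p l) (fun l _ => n l))
      (qJet m ((range (k + 1)).image c) (c (k + 1)) 0 w pr N) :=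
  nupp L hf hy hw hj hbw hwj hjo hjoj hoj hp hpr hn hlo hN
    (by linarith [hN' 0 hk, hn.hi 0 hk, L.φ0]) hN'

/-- **(NUPP)** -/
theorem t_nupp : NuppStmt := by
  intro m S c k sn G b o φ L α γ f y hf hy w j oj pr N p n hw hj hbw hwj hjo hjoj hoj hp hpr hn hlo
    hN hN'
  exact nupp1 L.k1 L hf hy hw hj hbw hwj hjo hjoj hoj hp hpr hn hlo hN hN'

/-- **(NU0P)** -/
theorem t_nu0p : Nu0pStmt := by
  intro m S c k sn G b o φ L α γ f y hf hy w x x' ox pr N hw hx hx' hbw hwx hxx hxo hox hox1 hx1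
    hpr hN hN'
  have hφ := L.φ0
  have hk0 : (0 : ℝ) ≤ k := Nat.cast_nonneg k
  have hkφ : 0 ≤ (k : ℝ) * φ := by positivity
  have hC : 60 * ((k : ℝ) + ((1 : ℕ) : ℝ) + 1) * φ = 60 * (k * φ) + 120 * φ := by push_cast; ring
  have hC' : 100 * ((k : ℝ) + 2) * φ = 100 * (k * φ) + 200 * φ := by ring
  rw [hC'] at hxx hx1 hN hN'
  refine t_nu0r L.toR hf hy hw hx hx' hbw hwx (by rw [hC]; linarith) hxo hox hox1
    (by rw [hC]; linarith) hpr (fun v hv a b' => ?_) (by rw [hC]; linarith)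
  rw [hC]
  have hxo' : x ≤ o := by linarith
  have := (abs_le.1 (L.eq v hv x hx (hbw.trans a) b' hxo')).2
  linarith

end Pool.V0Q
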